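import Pool.Agent.helper84.LP.SpecG

set_option autoImplicit false

open scoped MatrixGroups ContDiff Topology UpperHalfPlane ComplexConjugate
open UpperHalfPlane MeasureTheory Filter Set

namespace Pool.Agent.LP

open Pool.Agent.RS
open Pool.Agent.MS (bq BB BA SF pf)
open Pool.Agent.HV (FW)
open Pool.Agent.EN (XG MG mkX mkM fl pr)
open Pool.Agent.ER (Low LowJ)

theorem FUN_abs {a b x y A B : ℝ} (ha : |a| ≤ A) (hb : |b| ≤ B) (hx0 : 0 ≤ x) (hx1 : x ≤ 1) (hy0 : 0 ≤ y) (hy1 : y ≤ 1) :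
    |-(-a * (1 - y) + (1 - x) * -b)| ≤ A + B := by
  have h1 : |a * (1 - y)| ≤ A := by
    rw [abs_mul, abs_of_nonneg (by linarith : (0 : ℝ) ≤ 1 - y)]
    nlinarith [abs_nonneg a]
  have h2 : |(1 - x) * b| ≤ B := by
    rw [abs_mul, abs_of_nonneg (by linarith : (0 : ℝ) ≤ 1 - x)]
    nlinarith [abs_nonneg b]
  have h3 : -(-a * (1 - y) + (1 - x) * -b) = a * (1 - y) + (1 - x) * b := by ring
  rw [h3]
  exact (abs_add_le _ _).trans (add_le_add h1 h2)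

theorem FUN_int (f : ℝ → ℝ) (hf : Continuous f) (h0 : ∀ v, 0 ≤ f v) (S S1 S2 : Set ℝ) (h1 : S1 ⊆ Icc 0 1) (h2 : S2 ⊆ Icc 0 1)
    (hS : S ⊆ S1 ∪ S2) : ∫ v in S, f v ≤ (∫ v in S1, f v) + ∫ v in S2, f v := by
  have hi1 : Integrable f (volume.restrict S1) := (hf.integrableOn_Icc (a := 0) (b := 1)).mono_set h1
  have hi2 : Integrable f (volume.restrict S2) := (hf.integrableOn_Icc (a := 0) (b := 1)).mono_set h2
  have hle : volume.restrict S ≤ volume.restrict S1 + volume.restrict S2 :=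
    (Measure.restrict_mono_set _ hS).trans (Measure.restrict_union_le _ _)
  have h3 := integral_mono_measure (f := f) hle (Eventually.of_forall h0) (hi1.add_measure hi2)
  rwa [integral_add_measure hi1 hi2] at h3

theorem FUN_proof (hSFP : IR.SFP_stmt) : FUN_stmt := by
  intro Γ μ E E' a η G hμ hE hE' δ hδ
  obtain ⟨K1, hK1, hA⟩ := hE (δ / 2) (by linarith)
  obtain ⟨K2, hK2, hB⟩ := hE' (δ / 2) (by linarith)
  refine ⟨K1 + K2, by linarith, ?_⟩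
  intro C1 Q hC1 hQ
  obtain ⟨m1, hm1⟩ := hA C1 (Q / 2) hC1 (by linarith)
  obtain ⟨m2, hm2⟩ := hB C1 (Q / 2) hC1 (by linarith)
  refine ⟨max m1 m2, ?_⟩
  intro m hm
  obtain ⟨Ψ, Ψa, Ψn, Ψl, a1, a2, a3, a4, a5, a6⟩ := hm1 m ((le_max_left _ _).trans hm)
  obtain ⟨Φ, Φa, Φn, Φl, b1, b2, b3, b4, b5, b6⟩ := hm2 m ((le_max_right _ _).trans hm)
  have s1 := (hSFP Γ Ψ Ψa Ψn Ψl a1).2.1
  have s2 := (hSFP Γ Φ Φa Φn Φl b1).2.1
  have s3 := (hSFP Γ _ _ _ _ s1).1 _ _ _ _ s2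
  have s4 := (hSFP Γ _ _ _ _ s3).2.1
  refine ⟨_, _, _, _, s4, ?_, ?_, ?_, ?_, ?_⟩
  · intro g
    obtain ⟨u1, u2⟩ := a2 g
    obtain ⟨v1, v2⟩ := b2 g
    constructor
    · show (0 : ℝ) ≤ 1 - (1 - Ψ g) * (1 - Φ g)
      nlinarith
    · show 1 - (1 - Ψ g) * (1 - Φ g) ≤ 1
      nlinarith [mul_nonneg (by linarith : (0 : ℝ) ≤ 1 - Ψ g) (by linarith : (0 : ℝ) ≤ 1 - Φ g)]
  · intro g
    exact FUN_abs (a3 g) (b3 g) (a2 g).1 (a2 g).2 (b2 g).1 (b2 g).2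
  · intro g
    have := FUN_abs (a4 g) (b4 g) (a2 g).1 (a2 g).2 (b2 g).1 (b2 g).2
    rw [add_mul]
    exact this
  · have hsub : (E ∪ E') \ IR.one Γ (fun g => 1 - (1 - Ψ g) * (1 - Φ g)) ⊆ (E \ IR.one Γ Ψ) ∪ (E' \ IR.one Γ Φ) := by
      rintro x ⟨hx, hn⟩
      rcases hx with hx | hx
      · left
        refine ⟨hx, ?_⟩
        rintro ⟨g, hg, hg1⟩
        exact hn ⟨g, hg, by show 1 - (1 - Ψ g) * (1 - Φ g) = 1; rw [hg1]; ring⟩
      · right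
        refine ⟨hx, ?_⟩
        rintro ⟨g, hg, hg1⟩
        exact hn ⟨g, hg, by show 1 - (1 - Ψ g) * (1 - Φ g) = 1; rw [hg1]; ring⟩
    calc μ.real ((E ∪ E') \ IR.one Γ (fun g => 1 - (1 - Ψ g) * (1 - Φ g))) ≤ μ.real ((E \ IR.one Γ Ψ) ∪ (E' \ IR.one Γ Φ)) :=
          measureReal_mono hsub
      _ ≤ μ.real (E \ IR.one Γ Ψ) + μ.real (E' \ IR.one Γ Φ) := measureReal_union_le _ _
      _ ≤ δ := by linarith
  · intro g J c hAR
    have e1 := a6 g J c hAR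
    have e2 := b6 g J c hAR
    have hf : Continuous (fun v : ℝ => ‖∑ j ∈ J, c j * ee (Real.pi * j * v / 2)‖ ^ 2) := by
      unfold ee
      fun_prop
    have h3 := FUN_int _ hf (fun v => by positivity) (Icc (0 : ℝ) 1 ∩ {v | 1 - (1 - Ψ (g * lM v)) * (1 - Φ (g * lM v)) ≠ 0})
      (Icc (0 : ℝ) 1 ∩ {v | Ψ (g * lM v) ≠ 0}) (Icc (0 : ℝ) 1 ∩ {v | Φ (g * lM v) ≠ 0}) inter_subset_left inter_subset_left (by
        rintro v ⟨hv, hv1⟩
        by_cases hψ : Ψ (g * lM v) = 0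
        · right
          refine ⟨hv, ?_⟩
          intro hφ
          apply hv1
          show 1 - (1 - Ψ (g * lM v)) * (1 - Φ (g * lM v)) = 0
          rw [hψ, hφ]
          ring
        · left
          exact ⟨hv, hψ⟩)
    refine h3.trans ((add_le_add e1 e2).trans (le_of_eq ?_))
    ring

end Pool.Agent.LP
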